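import Pool.Agent.H72.SBP.Targets

open Module Filter

namespace Pool.Agent.H72.PER

open Pool.Agent.H72.HR
open Pool.Agent.H72.SBP (MvK)
open Pool.Agent.H72.BF (Pkg AlgB Exc)
open Pool.Agent.H72.HRA (MvC HRA)

/-! Targets of the board per_modules: the half rank theorem for all `ℚ`-linearly independent
logarithms (`2πi` allowed) and all pencils, with weights. -/

noncomputable section

section
variable {K : Type} (F : Type) [Field K] [Field F] [Algebra K F] {n l c : ℕ}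

/-- extension of scalars of a space of row vectors -/
def ext (V : Submodule K (Fin l → K)) : Submodule F (Fin l → F) :=
  Submodule.span F ((fun (v : Fin l → K) (i : Fin l) => algebraMap K F (v i)) ''
    (V : Set (Fin l → K)))

/-- the matrices with index in `S` send `V` into `U` -/
def Into (S : Set (Fin (n + 1))) (A : Fin (n + 1) → Matrix (Fin l) (Fin c) K)
    (V : Submodule K (Fin l → K)) (U : Submodule K (Fin c → K)) : Prop :=
  ∀ k ∈ S, ∀ y ∈ V, Matrix.vecMul y (A k) ∈ U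

/-- dimension of `V M + U` for the value `M` of the pencil at `x` -/
def RR (x : Fin n → F) (A : Fin (n + 1) → Matrix (Fin l) (Fin c) K)
    (V : Submodule K (Fin l → K)) (U : Submodule K (Fin c → K)) : ℕ :=
  finrank F ((ext F V).map (Matrix.vecMulLinear (MvK x A)) ⊔ ext F U :
    Submodule F (Fin c → F))

end

/-- half rank property with respect to the matrices with index in `S` -/
def HRS (K F : Type) [Field K] [Field F] [Algebra K F] {n : ℕ} (S : Set (Fin (n + 1)))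
    (x : Fin n → F) : Prop :=
  ∀ (l c : ℕ) (A : Fin (n + 1) → Matrix (Fin l) (Fin c) K),
    (∀ (V : Submodule K (Fin l → K)) (U : Submodule K (Fin c → K)), Into S A V U →
      c * finrank K V ≤ l * finrank K U) → l * c ≤ (MvK x A).rank * (l + c)

/-- half rank property on intervals of size at most `s` -/
def HRI (K F : Type) [Field K] [Field F] [Algebra K F] {n : ℕ} (S : Set (Fin (n + 1)))
    (x : Fin n → F) (s : ℕ) : Prop :=
  ∀ (l c : ℕ) (A : Fin (n + 1) → Matrix (Fin l) (Fin c) K) (V' V : Submodule K (Fin l → K))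
    (U' U : Submodule K (Fin c → K)) (a b : ℕ), V' ≤ V → U' ≤ U →
    Into Set.univ A V' U' → Into Set.univ A V U →
    finrank K V = finrank K V' + a → finrank K U = finrank K U' + b → a + b ≤ s →
    (∀ (V2 : Submodule K (Fin l → K)) (U2 : Submodule K (Fin c → K)), V' ≤ V2 → V2 ≤ V →
      U' ≤ U2 → U2 ≤ U → Into S A V2 U2 →
      b * (finrank K V2 - finrank K V') ≤ a * (finrank K U2 - finrank K U')) →
    a * b + (a + b) * finrank K U' ≤ (a + b) * RR F x A V U'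

/-- basic facts on extension of scalars -/
def T_EXA : Prop := ∀ (K F : Type) [Field K] [Field F] [Algebra K F] (n l c : ℕ),
  (∀ V : Submodule K (Fin l → K), finrank F (ext F V) = finrank K V) ∧
  (∀ V V' : Submodule K (Fin l → K), V ≤ V' → ext F V ≤ ext F V') ∧
  (∀ V V' : Submodule K (Fin l → K), ext F (V ⊔ V') = ext F V ⊔ ext F V') ∧
  (ext F (⊤ : Submodule K (Fin l → K)) = ⊤) ∧ (ext F (⊥ : Submodule K (Fin l → K)) = ⊥) ∧
  (∀ (x : Fin n → F) (A : Fin (n + 1) → Matrix (Fin l) (Fin c) K)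
    (V : Submodule K (Fin l → K)) (U : Submodule K (Fin c → K)), Into Set.univ A V U →
    (ext F V).map (Matrix.vecMulLinear (MvK x A)) ≤ ext F U)

/-- additivity along chains, and the value for the whole space -/
def T_ADD : Prop := ∀ (K F : Type) [Field K] [Field F] [Algebra K F] (n l c : ℕ) (x : Fin n → F)
  (A : Fin (n + 1) → Matrix (Fin l) (Fin c) K),
  (∀ (V' V : Submodule K (Fin l → K)) (U'' U' : Submodule K (Fin c → K)), V' ≤ V → U'' ≤ U' →
    Into Set.univ A V' U' → RR F x A V U' + RR F x A V' U'' ≤ RR F x A V U'' + finrank K U') ∧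
  RR F x A ⊤ ⊥ = (MvK x A).rank

/-- the middle block: all matrices but the last send `V` into `U` -/
def T_MID : Prop := ∀ (K F : Type) [Field K] [Field F] [Algebra K F] (m l c : ℕ)
  (x : Fin (m + 1) → F), x (Fin.last m) ≠ 0 → ∀ (A : Fin (m + 1 + 1) → Matrix (Fin l) (Fin c) K)
  (V : Submodule K (Fin l → K)) (U : Submodule K (Fin c → K)),
  Into {k | k ≠ Fin.last (m + 1)} A V U →
  RR F x A V U = finrank K (U ⊔ V.map (Matrix.vecMulLinear (A (Fin.last (m + 1)))) :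
    Submodule K (Fin c → K))

/-- the half rank property for matrices gives it for intervals -/
def T_INT : Prop := ∀ (K F : Type) [Field K] [Field F] [Algebra K F] (n : ℕ)
  (S : Set (Fin (n + 1))) (x : Fin n → F), HRS K F S x → ∀ s, HRI K F S x s

/-- intervals all of whose subs have small slope -/
def T_GB : Prop := ∀ (K F : Type) [Field K] [Field F] [Algebra K F] (n : ℕ) (x : Fin n → F)
  (s p q : ℕ), 0 < p → 0 < q → HRI K F Set.univ x s →
  ∀ (l c : ℕ) (A : Fin (n + 1) → Matrix (Fin l) (Fin c) K) (V' V : Submodule K (Fin l → K))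
    (U' U : Submodule K (Fin c → K)) (a b : ℕ), V' ≤ V → U' ≤ U →
    Into Set.univ A V' U' → Into Set.univ A V U →
    finrank K V = finrank K V' + a → finrank K U = finrank K U' + b → a + b ≤ s →
    (∀ (V2 : Submodule K (Fin l → K)) (U2 : Submodule K (Fin c → K)), V' ≤ V2 → V2 ≤ V →
      U' ≤ U2 → U2 ≤ U → Into Set.univ A V2 U2 →
      p * (finrank K V2 - finrank K V') ≤ q * (finrank K U2 - finrank K U')) →
    p * a + (p + q) * finrank K U' ≤ (p + q) * RR F x A V U'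

/-- intervals all of whose quotients have large slope -/
def T_GA : Prop := ∀ (K F : Type) [Field K] [Field F] [Algebra K F] (n : ℕ) (x : Fin n → F)
  (s p q : ℕ), 0 < p → 0 < q → HRI K F Set.univ x s →
  ∀ (l c : ℕ) (A : Fin (n + 1) → Matrix (Fin l) (Fin c) K) (V' V : Submodule K (Fin l → K))
    (U' U : Submodule K (Fin c → K)) (a b : ℕ), V' ≤ V → U' ≤ U →
    Into Set.univ A V' U' → Into Set.univ A V U →
    finrank K V = finrank K V' + a → finrank K U = finrank K U' + b → a + b ≤ s →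
    (∀ (V2 : Submodule K (Fin l → K)) (U2 : Submodule K (Fin c → K)), V' ≤ V2 → V2 ≤ V →
      U' ≤ U2 → U2 ≤ U → Into Set.univ A V2 U2 →
      q * (finrank K U - finrank K U2) ≤ p * (finrank K V - finrank K V2)) →
    q * b + (p + q) * finrank K U' ≤ (p + q) * RR F x A V U'

/-- one more letter: from all letters but the last to all letters -/
def T_PER : Prop := ∀ (K F : Type) [Field K] [Field F] [Algebra K F] (m : ℕ)
  (x : Fin (m + 1) → F), x (Fin.last m) ≠ 0 → HRS K F {k | k ≠ Fin.last (m + 1)} x →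
  HRS K F Set.univ x

/-- the weighted half rank theorem for all pencils -/
def T_WGT : Prop := ∀ (K F : Type) [Field K] [Field F] [Algebra K F] (n : ℕ) (x : Fin n → F),
  HRS K F Set.univ x → ∀ (l c p q N : ℕ) (A : Fin (n + 1) → Matrix (Fin l) (Fin c) K),
  0 < p → 0 < q → (∀ (V : Submodule K (Fin l → K)) (U : Submodule K (Fin c → K)),
    Into Set.univ A V U → N ≤ p * (l - finrank K V) + q * finrank K U) →
  N ≤ (p + q) * (MvK x A).rank

/-- the half rank theorem in the residue field, with a set `K` of indices -/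
def T_FHRK : Prop := HRA → ∀ (n : ℕ) (lam : Fin n → ℂ) (K : Set (Fin n)),
  (∀ k, IsAlgebraic ℚ (Complex.exp (lam k))) → MI lam K →
  ∀ (H : ℕ → ℝ), (∀ t : ℕ, (t : ℝ) + 2 ≤ H t) → ∀ P : Pkg H,
  HRS P.kb P.F ({0} ∪ Fin.succ '' K) (fun k => P.cst (lam k))

/-- the half rank property for all `ℚ`-linearly independent logarithms -/
def T_HRL : Prop := ∀ (n : ℕ) (lam : Fin n → ℂ), LinearIndependent ℚ lam →
  (∀ k, IsAlgebraic ℚ (Complex.exp (lam k))) →
  ∀ (H : ℕ → ℝ), (∀ t : ℕ, (t : ℝ) + 2 ≤ H t) → ∀ P : Pkg H,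
  HRS P.kb P.F Set.univ (fun k => P.cst (lam k))

/-- lifting of a pair of spaces from the residue field -/
def T_LFX : Prop := ∀ (H : ℕ → ℝ) (P : Pkg H) (n l c δ : ℕ)
  (At : ℕ → Fin (n + 1) → Matrix (Fin l) (Fin c) ℂ),
  (∀ t k i j, AlgB δ (H t) (At t k i j)) →
  ∀ A : Fin (n + 1) → Matrix (Fin l) (Fin c) P.kb,
  (∀ k i j, P.ev (fun t => At t k i j) = algebraMap P.kb P.F (A k i j)) →
  ∀ (V : Submodule P.kb (Fin l → P.kb)) (U : Submodule P.kb (Fin c → P.kb)),
  Into Set.univ A V U → ∀ᶠ t in (hyperfilter ℕ : Filter ℕ),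
    ∃ (V' : Submodule ℂ (Fin l → ℂ)) (U' : Submodule ℂ (Fin c → ℂ)),
      finrank ℂ V' = finrank P.kb V ∧ finrank ℂ U' = finrank P.kb U ∧
      Into Set.univ (At t) V' U'

/-- THEOREM: the half rank theorem for all pencils and all logarithms, with polynomial loss -/
def HalfRankPlus : Prop := ∀ (n : ℕ) (z : Fin n → ℂ),
  (∀ k, IsAlgebraic ℚ (Complex.exp (z k))) → ∀ K : Set (Fin n),
  (∀ m : Fin n → ℤ, ∑ k, (m k : ℂ) * z k = 0 → ∀ k ∈ K, m k = 0) → ∀ δ l c p q : ℕ,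
  0 < p → 0 < q → ∃ C : ℝ, 0 < C ∧ ∀ H : ℝ, 2 ≤ H →
  ∀ A : Fin (n + 1) → Matrix (Fin l) (Fin c) ℂ, (∀ k i j, AlgB δ H (A k i j)) →
  ∀ N : ℕ, (∀ (V : Submodule ℂ (Fin l → ℂ)) (U : Submodule ℂ (Fin c → ℂ)),
    Into ({0} ∪ Fin.succ '' K) A V U → N ≤ p * (l - finrank ℂ V) + q * finrank ℂ U) →
  ∃ (m : ℕ) (I : Fin m → Fin l) (J : Fin m → Fin c), N ≤ (p + q) * m ∧
    1 ≤ H ^ C * ‖((MvC z A).submatrix I J).det‖

/-- `HalfRankPlus` for independent logarithms and `K` everything -/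
def HalfRankPlus0 : Prop := ∀ (n : ℕ) (z : Fin n → ℂ),
  (∀ k, IsAlgebraic ℚ (Complex.exp (z k))) → LinearIndependent ℚ z → ∀ δ l c p q : ℕ,
  0 < p → 0 < q → ∃ C : ℝ, 0 < C ∧ ∀ H : ℝ, 2 ≤ H →
  ∀ A : Fin (n + 1) → Matrix (Fin l) (Fin c) ℂ, (∀ k i j, AlgB δ H (A k i j)) →
  ∀ N : ℕ, (∀ (V : Submodule ℂ (Fin l → ℂ)) (U : Submodule ℂ (Fin c → ℂ)),
    Into Set.univ A V U → N ≤ p * (l - finrank ℂ V) + q * finrank ℂ U) →
  ∃ (m : ℕ) (I : Fin m → Fin l) (J : Fin m → Fin c), N ≤ (p + q) * m ∧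
    1 ≤ H ^ C * ‖((MvC z A).submatrix I J).det‖

/-- THEOREM: exceptional subspaces, all logarithms -/
def SubspaceBound3 : Prop :=
  ∀ (n : ℕ) (lam : Fin n → ℂ), LinearIndependent ℚ lam →
    (∀ j, IsAlgebraic ℚ (Complex.exp (lam j))) →
    ∀ d : ℕ, ∃ C : ℝ, 0 < C ∧ ∀ H : ℝ, 2 ≤ H →
    ∃ W : Submodule ℚ (MvPolynomial (Fin n) ℚ),
      W ≤ MvPolynomial.restrictTotalDegree (Fin n) ℚ (d + 1) ∧
      finrank ℚ W + (n + 1 + d * max n ((n + 1) ^ 2 / 4)) ≤ (n + (d + 1)).choose n ∧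
      ∀ P ∈ Exc n lam (d + 1) C H, MvPolynomial.map (Int.castRingHom ℚ) P ∈ W

/-- THEOREM: exceptional subspaces for pairs, all logarithms -/
def ExcSub3 : Prop := ∀ d M : ℕ, ∃ s : ℕ, ∀ (mu : Fin M → ℂ),
    LinearIndependent ℚ mu → (∀ j, IsAlgebraic ℚ (Complex.exp (mu j))) →
    ∃ C : ℝ, 0 < C ∧ ∀ H : ℝ, 2 ≤ H → ∀ v : Fin M → ℤ, v ≠ 0 → (∀ i, |(v i : ℝ)| ≤ H) →
    ∃ U : Fin s → Submodule ℚ (Fin M → ℚ),
      (∀ i, Module.finrank ℚ (U i) ≤ min d (Nat.sqrt (4 * d + 1) - 1) ∧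
        (fun j => (v j : ℚ)) ∈ U i) ∧
      ∀ w : Fin M → ℤ, (∀ i, |(w i : ℝ)| ≤ H) → (∀ i, (fun j => (w j : ℚ)) ∉ U i) →
        ∀ P : MvPolynomial (Fin 2) ℤ, P ≠ 0 → P.totalDegree ≤ d →
          (∀ m : Fin 2 →₀ ℕ, |((P.coeff m : ℤ) : ℝ)| ≤ H) →
          1 ≤ H ^ C * ‖MvPolynomial.aeval ![∑ j, (v j : ℂ) * mu j, ∑ j, (w j : ℂ) * mu j] P‖

end

end Pool.Agent.H72.PER
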