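import Pool.Agent.H72.PER.HRL
import Pool.Agent.H72.SBP.ESF2

open Finset Filter
open Pool.Agent.H72.BF

namespace Pool.Agent.H72.PER

open Pool.Agent.H62.BF (EB red sec)
open Pool.Agent.H72.SBP (BadE BadE_mono esf_core exs2 exc_dim HRP)

theorem pf_ES3 (hBF : T_BF) (hPKG : T_PKG) (hBFF : T_BFF) (hEVP : T_EVP) (hMNR : T_MNR)
    (hCVR : T_CVR) (hSPT : T_SPT) (hSPC : T_SPC) (hCRT : T_CRT) (hHRL : T_HRL) : ExcSub3 := by
  classical
  intro d M
  rcases Nat.eq_zero_or_pos d with hd0 | hd
  · subst hd0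
    refine ⟨0, fun mu _ _ => ⟨1, one_pos, fun H hH v _ _ => ⟨fun i => i.elim0, fun i => i.elim0,
      fun w _ _ P hP hPd _ => ?_⟩⟩⟩
    have h1 := (MvPolynomial.totalDegree_eq_zero_iff_eq_C (p := P)).mp (Nat.le_zero.mp hPd)
    rw [h1]
    have h2 : P.coeff 0 ≠ 0 := by
      intro h
      rw [h, map_zero] at h1
      exact hP h1
    rw [MvPolynomial.aeval_C, algebraMap_int_eq, Int.coe_castRingHom, Complex.norm_intCast,
      Real.rpow_one]
    have h3 : (1:ℝ) ≤ |((MvPolynomial.coeff 0 P : ℤ) : ℝ)| := by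
      exact_mod_cast Int.one_le_abs h2
    nlinarith
  cases M with
  | zero =>
    refine ⟨0, fun mu _ _ => ⟨1, one_pos, fun H hH v hv _ => ?_⟩⟩
    exact absurd (Subsingleton.elim v 0) hv
  | succ M =>
    obtain ⟨s, hs⟩ := exs2 hCVR hSPT d M
    refine ⟨s, fun mu hli hmu => ?_⟩
    obtain ⟨e, he⟩ : ∃ e, e = min (d - 1) (Nat.sqrt (4 * d + 1) - 2) := ⟨_, rfl⟩
    have hsq : 2 ≤ Nat.sqrt (4 * d + 1) := by
      rw [Nat.le_sqrt]
      omega
    have he1 : e + 1 = min d (Nat.sqrt (4 * d + 1) - 1) := by omega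
    rw [← he1]
    obtain ⟨N, hN⟩ := hCRT s e
    by_contra hcon
    push Not at hcon
    have h1 : ∀ n : ℕ, ∃ i0, BadE d e M s N mu ((n : ℝ) + 1) i0 := by
      intro n
      obtain ⟨H, hH2, v, hv0, hvH, hH⟩ := hcon ((n : ℝ) + 1) (by positivity)
      obtain ⟨i0, hi0⟩ := Function.ne_iff.mp hv0
      refine ⟨i0, H, hH2, v, hvH, hi0, ?_⟩
      have h2 : ¬ ∃ U : Fin s → Submodule ℚ (Fin M → ℚ),
          (∀ i, Module.finrank ℚ (U i) ≤ e) ∧
          ∀ b ∈ {b : Fin M → ℚ | ∃ w : Fin (M + 1) → ℤ, (b = fun k => (red i0 v w k : ℚ)) ∧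
            EB d (M + 1) mu ((n : ℝ) + 1) H v w}, ∃ l, b ∈ U l := by
        rintro ⟨U, hU1, hU2⟩
        obtain ⟨w, hw1, hw2, P, hP0, hPd, hPc, hPv⟩ := hH
          (fun l => Submodule.span ℚ {(fun j => (v j : ℚ) : Fin (M + 1) → ℚ)} ⊔
            (U l).map (sec i0)) (by
          intro l
          refine ⟨?_, Submodule.mem_sup_left (Submodule.mem_span_singleton_self _)⟩
          refine le_trans (Submodule.finrank_add_le_finrank_add_finrank _ _) ?_
          have h3 := finrank_span_le_card (R := ℚ)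
            ({(fun j => (v j : ℚ) : Fin (M + 1) → ℚ)} : Set (Fin (M + 1) → ℚ))
          have h4 : Module.finrank ℚ ((U l).map (sec i0)) ≤ Module.finrank ℚ (U l) :=
            Submodule.finrank_map_le _ _
          have h5 := hU1 l
          simp only [Set.toFinset_singleton, Finset.card_singleton] at h3
          omega)
        obtain ⟨l, hl⟩ := hU2 _ ⟨w, rfl, hw1, P, hP0, hPd, hPc, hPv⟩
        apply hw2 l
        have hvq : (v i0 : ℚ) ≠ 0 := by exact_mod_cast hi0
        have h6 : (fun j => (w j : ℚ)) = ((w i0 : ℚ) / v i0) • (fun j => (v j : ℚ)) +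
            (1 / (v i0 : ℚ)) • sec i0 (fun k => (red i0 v w k : ℚ)) := by
          funext k
          refine Fin.succAboveCases i0 ?_ (fun k => ?_) k
          · rw [Pi.add_apply, Pi.smul_apply, Pi.smul_apply]
            change (w i0 : ℚ) = (w i0 : ℚ) / v i0 * v i0 + 1 / (v i0 : ℚ) *
              (i0.insertNth (α := fun _ => ℚ) 0 (fun k => (red i0 v w k : ℚ)) : Fin (M + 1) → ℚ) i0
            rw [Fin.insertNth_apply_same]
            field_simp
            ring
          · rw [Pi.add_apply, Pi.smul_apply, Pi.smul_apply]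
            change (w (i0.succAbove k) : ℚ) = (w i0 : ℚ) / v i0 * v (i0.succAbove k) +
              1 / (v i0 : ℚ) * (i0.insertNth (α := fun _ => ℚ) 0
                (fun k => (red i0 v w k : ℚ)) : Fin (M + 1) → ℚ) (i0.succAbove k)
            rw [Fin.insertNth_apply_succAbove, red]
            push_cast
            field_simp
            ring
        rw [h6]
        exact Submodule.add_mem_sup
          (Submodule.smul_mem _ _ (Submodule.mem_span_singleton_self _))
          (Submodule.smul_mem _ _ (Submodule.mem_map_of_mem hl))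
      have h3 := mt (hN ℚ M _) h2
      push Not at h3
      obtain ⟨b, hb1, hb2⟩ := h3
      choose w hw1 hw2 using hb1
      refine ⟨w, hw2, fun U hU => ?_⟩
      obtain ⟨i, hi⟩ := hb2 U hU
      refine ⟨i, fun l => ?_⟩
      rw [← hw1 i]
      exact hi l
    have h2 : ∃ i0, ∀ n : ℕ, BadE d e M s N mu ((n : ℝ) + 1) i0 := by
      by_contra hno
      push Not at hno
      choose f hf using hno
      obtain ⟨i0, hB⟩ := h1 (Finset.univ.sup f)
      refine hf i0 (BadE_mono ?_ hB)
      have h4 : f i0 ≤ Finset.univ.sup f := Finset.le_sup (f := f) (Finset.mem_univ _)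
      have h5 : (f i0 : ℝ) ≤ ((Finset.univ.sup f : ℕ) : ℝ) := by exact_mod_cast h4
      linarith
    obtain ⟨i0, hB⟩ := h2
    choose H' hH2' v' hvH' hv0' w' hw' hcov' using hB
    obtain ⟨q, hq⟩ : ∃ q : ℕ → ℕ, q = fun j => (j + 2) * (j + 1) := ⟨_, rfl⟩
    obtain ⟨H, hH⟩ : ∃ H : ℕ → ℝ, H = fun j => max (H' (q j)) ((j : ℝ) + 2) := ⟨_, rfl⟩
    have hH2 : ∀ j, 2 ≤ H j := fun j => by
      rw [hH]
      exact (hH2' (q j)).trans (le_max_left _ _)
    have hHle : ∀ j, H' (q j) ≤ H j := fun j => by
      rw [hH]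
      exact le_max_left _ _
    have htH : ∀ j : ℕ, (j : ℝ) + 2 ≤ H j := fun j => by
      rw [hH]
      exact le_max_right _ _
    have hpow : ∀ j : ℕ, H j ^ ((j : ℝ) + 1) ≤ H' (q j) ^ ((q j : ℝ) + 1) := by
      intro j
      have h2H := hH2' (q j)
      have h5 : H j ≤ H' (q j) ^ ((j : ℝ) + 2) := by
        rw [hH]
        refine max_le ?_ ?_
        · calc H' (q j) = H' (q j) ^ (1 : ℝ) := (Real.rpow_one _).symm
            _ ≤ H' (q j) ^ ((j : ℝ) + 2) :=
              Real.rpow_le_rpow_of_exponent_le (by linarith) (by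
                have : (0 : ℝ) ≤ j := Nat.cast_nonneg j
                linarith)
        · have h6 : ((j : ℝ) + 2) ≤ 2 ^ ((j : ℝ) + 2) := by
            have h7 : j + 2 ≤ 2 ^ (j + 2) := Nat.lt_two_pow_self.le
            have h8 : (2 : ℝ) ^ ((j : ℝ) + 2) = 2 ^ (j + 2 : ℕ) := by
              rw [← Real.rpow_natCast]
              push_cast
              rfl
            rw [h8]
            exact_mod_cast h7
          refine h6.trans ?_
          exact Real.rpow_le_rpow (by norm_num) h2H (by positivity)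
      calc H j ^ ((j : ℝ) + 1) ≤ (H' (q j) ^ ((j : ℝ) + 2)) ^ ((j : ℝ) + 1) :=
            Real.rpow_le_rpow (by linarith [hH2 j]) h5 (by positivity)
        _ = H' (q j) ^ (((j : ℝ) + 2) * ((j : ℝ) + 1)) := by
            rw [Real.rpow_mul (by linarith)]
        _ ≤ H' (q j) ^ ((q j : ℝ) + 1) := by
            refine Real.rpow_le_rpow_of_exponent_le (by linarith) ?_
            rw [hq]
            push_cast
            linarith
    obtain ⟨P⟩ := hPKG H hH2
    have hli3 := hBFF hBF (M + 1) mu hli hmu H P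
    have hHRP := (hrp_iff _).2 (hHRL (M + 1) mu hli hmu H htH P)
    refine esf_core hEVP hMNR d e M s N P mu ?_ hli3 i0 (fun j => v' (q j))
      (fun j i => (hvH' (q j) i).trans (hHle j)) (fun j => hv0' (q j)) (fun j => w' (q j)) ?_
      (fun j => hcov' (q j))
    · intro t y hty hspan
      obtain ⟨W, hW1, hW2⟩ := hs P.kb P.F t y hty
        (Nat.sqrt (4 * d + 1)) (by
          intro W hW h1 htW hWle hrel
          have ht : Transcendental P.kb t := by
            intro halg
            have hint : IsIntegral P.kb t := halg.isIntegral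
            have hdeg : (minpoly P.kb t).degree = 1 :=
              IsAlgClosed.degree_eq_one_of_irreducible P.kb (minpoly.irreducible hint)
            obtain ⟨c, hc⟩ := minpoly.mem_range_of_degree_eq_one P.kb t hdeg
            have hg := Fintype.linearIndependent_iff.1 hty (Fin.cons c (Fin.cons (-1) 0)) (by
              rw [Fin.sum_univ_succ, Fin.sum_univ_succ]
              simp only [Fin.cons_zero, Fin.cons_succ, Pi.zero_apply, zero_smul,
                Finset.sum_const_zero]
              rw [Algebra.smul_def, hc]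
              simp) 1
            have : (-1 : P.kb) = 0 := hg
            simp at this
          have h9 := exc_dim hSPC (fun k => P.cst (mu k)) hli3 id hHRP t ht d W hW h1 htW
            (hWle.trans hspan) hrel
          rwa [Nat.sub_self, Nat.add_zero] at h9)
      refine ⟨W, fun i => ?_, hW2⟩
      rw [he]
      exact hW1 i
    · intro j i
      obtain ⟨g1, Q, g2, g3, g4, g5⟩ := hw' (q j) i
      refine ⟨fun k => (g1 k).trans (hHle j), Q, g2, g3, fun m => (g4 m).trans (hHle j), ?_⟩
      exact lt_of_le_of_lt (mul_le_mul_of_nonneg_right (hpow j) (norm_nonneg _)) g5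

end Pool.Agent.H72.PER
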