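import Pool.Agent.H72.PER.Targets
import Pool.Agent.H72.SBP.Deg6
import Pool.Agent.H72.SBP.SBP

open Module Filter

namespace Pool.Agent.H72.PER

open Pool.Agent.H72.HR
open Pool.Agent.H72.SBP (MvK XiK SemiK HRP exists_mu hrp_trans)
open Pool.Agent.H72.BF (Pkg AlgB T_BF T_BFF)
open Pool.Agent.H72.HRA (MvC HRA)

noncomputable section

theorem hrp_iff {K F : Type} [Field K] [Field F] [Algebra K F] {n : ℕ} (x : Fin n → F) :
    HRP K F x ↔ HRS K F Set.univ x := by
  constructor
  · intro h l c A hA
    refine h l c A fun U => hA _ U ?_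
    intro k _ y hy
    unfold XiK at hy
    exact (Submodule.mem_iInf _).1 hy k
  · intro h l c A hA
    refine h l c A fun V U hVU => ?_
    refine le_trans (Nat.mul_le_mul_left c (Submodule.finrank_mono ?_)) (hA U)
    intro y hy
    unfold XiK
    rw [Submodule.mem_iInf]
    intro k
    exact hVU k (Set.mem_univ _) y hy

/-- residues of constants -/
def cstHom {H : ℕ → ℝ} (P : Pkg H) : ℂ →+* P.F where
  toFun := P.cst
  map_one' := P.ev_one
  map_mul' := P.cst_mul
  map_zero' := P.ev_zero
  map_add' := P.cst_add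

theorem cst_rat {H : ℕ → ℝ} (P : Pkg H) (q : ℚ) : P.cst (q : ℂ) = (q : P.F) :=
  map_ratCast (cstHom P) q

/-- a basis of the span with the period as last element -/
theorem exists_mu2 (n r : ℕ) (lam : Fin n → ℂ)
    (hr : r + 1 = finrank ℚ (Submodule.span ℚ (insert (2 * Real.pi * Complex.I) (Set.range lam)))) :
    ∃ σ : Fin r → Fin n, MI (fun k => lam (σ k)) Set.univ ∧ ∀ j, ∃ q : Fin (r + 1) → ℚ,
      lam j = ∑ k, (q k : ℂ) * (Fin.snoc (α := fun _ => ℂ) (fun k => lam (σ k))
        (2 * Real.pi * Complex.I) : Fin (r + 1) → ℂ) k := by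
  classical
  obtain ⟨σ, hσ⟩ := exists_mu n r lam hr
  refine ⟨σ, hσ, ?_⟩
  obtain ⟨w, hw⟩ : ∃ w : Fin (r + 1) → ℂ, w = Fin.snoc (α := fun _ => ℂ)
    (fun k => lam (σ k)) (2 * Real.pi * Complex.I) := ⟨_, rfl⟩
  rw [← hw]
  have hpi : (2 * Real.pi * Complex.I : ℂ) ≠ 0 := by
    simp [Real.pi_ne_zero]
  have hliZ : LinearIndependent ℤ w := by
    rw [Fintype.linearIndependent_iff]
    intro g hg
    rw [Fin.sum_univ_castSucc, hw] at hg
    simp only [Fin.snoc_castSucc, Fin.snoc_last, zsmul_eq_mul] at hg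
    have h1 : ∀ k : Fin r, g k.castSucc = 0 := by
      intro k
      refine hσ (fun k => g k.castSucc) ?_ k (Set.mem_univ _)
      have h2 : ∑ k : Fin r, (g k.castSucc : ℂ) * lam (σ k) =
          ((-g (Fin.last r) : ℤ) : ℂ) * (2 * Real.pi * Complex.I) := by
        push_cast
        linear_combination hg
      rw [h2]
      exact Complex.exp_int_mul_two_pi_mul_I _
    have h3 : g (Fin.last r) = 0 := by
      simp only [h1, Int.cast_zero, zero_mul, Finset.sum_const_zero, zero_add] at hg
      have := (mul_eq_zero.1 hg).resolve_right hpi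
      exact_mod_cast this
    intro i
    refine Fin.lastCases h3 (fun i => h1 i) i
  have hli : LinearIndependent ℚ w := LinearIndependent.iff_fractionRing (R := ℤ) (K := ℚ) |>.1 hliZ
  have hle : Submodule.span ℚ (Set.range w) ≤
      Submodule.span ℚ (insert (2 * Real.pi * Complex.I) (Set.range lam)) := by
    rw [Submodule.span_le]
    rintro _ ⟨k, rfl⟩
    refine Submodule.subset_span ?_
    rw [hw]
    refine Fin.lastCases ?_ (fun k => ?_) k
    · rw [Fin.snoc_last]
      exact Set.mem_insert _ _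
    · rw [Fin.snoc_castSucc]
      exact Set.mem_insert_of_mem _ ⟨σ k, rfl⟩
  have hfd : FiniteDimensional ℚ
      (Submodule.span ℚ (insert (2 * Real.pi * Complex.I) (Set.range lam))) :=
    FiniteDimensional.span_of_finite ℚ ((Set.finite_range lam).insert _)
  have heq := Submodule.eq_of_le_of_finrank_eq hle (by
    rw [finrank_span_eq_card hli, Fintype.card_fin, hr])
  intro j
  have hj : lam j ∈ Submodule.span ℚ (Set.range w) := by
    rw [heq]
    exact Submodule.subset_span (Set.mem_insert_of_mem _ ⟨j, rfl⟩)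
  rw [Submodule.mem_span_range_iff_exists_fun] at hj
  obtain ⟨q, hq⟩ := hj
  refine ⟨q, ?_⟩
  rw [← hq]
  exact Finset.sum_congr rfl fun k _ => by rw [Rat.smul_def]

theorem pf_HRL (h1 : T_PER) (h2 : T_FHRK) (h3 : HRA) (hBF : T_BF) (hBFF : T_BFF) : T_HRL := by
  classical
  intro n lam hlam halg H hH P
  obtain ⟨r, hr⟩ : ∃ r, r + 1 =
      finrank ℚ (Submodule.span ℚ (insert (2 * Real.pi * Complex.I) (Set.range lam))) := by
    have hfd : FiniteDimensional ℚ
        (Submodule.span ℚ (insert (2 * Real.pi * Complex.I) (Set.range lam))) :=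
      FiniteDimensional.span_of_finite ℚ ((Set.finite_range lam).insert _)
    have hpos : 0 < finrank ℚ
        (Submodule.span ℚ (insert (2 * Real.pi * Complex.I) (Set.range lam))) := by
      rw [Module.finrank_pos_iff_exists_ne_zero]
      refine ⟨⟨2 * Real.pi * Complex.I, Submodule.subset_span (Set.mem_insert _ _)⟩, ?_⟩
      intro h
      have := congrArg Subtype.val h
      simp [Real.pi_ne_zero] at this
    exact ⟨_, Nat.sub_add_cancel hpos⟩
  obtain ⟨σ, hσ, hcomb⟩ := exists_mu2 n r lam hr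
  obtain ⟨w, hw⟩ : ∃ w : Fin (r + 1) → ℂ, w = Fin.snoc (α := fun _ => ℂ)
    (fun k => lam (σ k)) (2 * Real.pi * Complex.I) := ⟨_, rfl⟩
  rw [← hw] at hcomb
  have hwalg : ∀ k, IsAlgebraic ℚ (Complex.exp (w k)) := by
    intro k
    rw [hw]
    refine Fin.lastCases ?_ (fun k => ?_) k
    · rw [Fin.snoc_last, Complex.exp_two_pi_mul_I]
      exact isAlgebraic_one
    · rw [Fin.snoc_castSucc]
      exact halg _
  have hMI : MI w {k | k ≠ Fin.last r} := by
    intro m hm k hk
    have h4 : ∀ k : Fin r, m k.castSucc = 0 := by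
      intro k
      refine hσ (fun k => m k.castSucc) ?_ k (Set.mem_univ _)
      rw [Fin.sum_univ_castSucc, hw] at hm
      simp only [Fin.snoc_castSucc, Fin.snoc_last] at hm
      rw [Complex.exp_add, Complex.exp_int_mul_two_pi_mul_I, mul_one] at hm
      exact hm
    revert hk
    refine Fin.lastCases ?_ (fun k => ?_) k
    · intro hk
      exact absurd rfl hk
    · intro _
      exact h4 k
  have hS := h2 h3 (r + 1) w {k | k ≠ Fin.last r} hwalg hMI H hH P
  have hSeq : ({0} ∪ Fin.succ '' {k : Fin (r + 1) | k ≠ Fin.last r} : Set (Fin (r + 1 + 1))) =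
      {k | k ≠ Fin.last (r + 1)} := by
    ext k
    refine Fin.cases ?_ (fun k => ?_) k
    · simp only [Set.mem_union, Set.mem_singleton_iff, true_or, Set.mem_setOf_eq, true_iff]
      exact (Fin.last_pos).ne
    · simp only [Set.mem_union, Set.mem_singleton_iff, Fin.succ_ne_zero, false_or,
        Set.mem_image, Set.mem_setOf_eq]
      constructor
      · rintro ⟨k', hk', h⟩
        rw [Fin.succ_inj] at h
        rw [← h]
        intro h5
        apply hk'
        rw [← Fin.succ_last, Fin.succ_inj] at h5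
        exact h5
      · intro h
        refine ⟨k, fun h5 => h ?_, rfl⟩
        rw [h5, Fin.succ_last]
  rw [hSeq] at hS
  have hlast : P.cst (w (Fin.last r)) ≠ 0 := by
    rw [Ne, P.cst_eq_zero, hw, Fin.snoc_last]
    simp [Real.pi_ne_zero]
  have hW := h1 P.kb P.F r (fun k => P.cst (w k)) hlast hS
  rw [← hrp_iff] at hW ⊢
  choose q hq using hcomb
  obtain ⟨a, ha⟩ : ∃ a : Fin (n + 1) → Fin (r + 1 + 1) → P.kb,
    a = Fin.cons (Pi.single 0 1) (fun j => Fin.cons 0 (fun k => ((q j k : ℚ) : P.kb))) :=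
    ⟨_, rfl⟩
  have hy : ∀ i, (Fin.cons 1 (fun k => P.cst (lam k)) : Fin (n + 1) → P.F) i =
      ∑ k, (Fin.cons 1 (fun k => P.cst (w k)) : Fin (r + 1 + 1) → P.F) k *
        algebraMap P.kb P.F (a i k) := by
    intro i
    refine Fin.cases ?_ (fun j => ?_) i
    · rw [Fin.cons_zero, ha, Fin.cons_zero, Finset.sum_eq_single 0]
      · simp
      · intro k _ hk
        simp [hk]
      · intro h
        exact absurd (Finset.mem_univ _) h
    · rw [Fin.cons_succ, ha, Fin.cons_succ, Fin.sum_univ_succ]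
      simp only [Fin.cons_zero, Fin.cons_succ, map_zero, mul_zero, zero_add]
      have h5 : P.cst (lam j) = cstHom P (lam j) := rfl
      rw [h5, hq j, map_sum]
      refine Finset.sum_congr rfl fun k _ => ?_
      rw [map_mul, map_ratCast, map_ratCast, mul_comm]
      rfl
  refine hrp_trans (fun k => P.cst (w k)) (fun k => P.cst (lam k)) hW a hy ?_
  have hBFx := hBFF hBF n lam hlam halg H P
  rw [Fintype.linearIndependent_iff] at hBFx ⊢
  intro g hg
  refine hBFx g ?_
  simp only [Algebra.smul_def, hy, Finset.mul_sum]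
  rw [Finset.sum_comm]
  refine Finset.sum_eq_zero fun k _ => ?_
  have h3 := congrArg (algebraMap P.kb P.F) (congrFun hg k)
  rw [Finset.sum_apply, map_sum] at h3
  simp only [Pi.smul_apply, smul_eq_mul, map_mul, Pi.zero_apply, map_zero] at h3
  have h4 : ∑ i, algebraMap P.kb P.F (g i) *
      ((Fin.cons 1 (fun k => P.cst (w k)) : Fin (r + 1 + 1) → P.F) k *
        algebraMap P.kb P.F (a i k)) =
      (Fin.cons 1 (fun k => P.cst (w k)) : Fin (r + 1 + 1) → P.F) k *
        ∑ i, algebraMap P.kb P.F (g i) * algebraMap P.kb P.F (a i k) := by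
    rw [Finset.mul_sum]
    exact Finset.sum_congr rfl fun i _ => by ring
  rw [h4, h3, mul_zero]

end

end Pool.Agent.H72.PER
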