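import Pool.Agent.H72.PER.Targets

open Module

namespace Pool.Agent.H72.PER

open Pool.Agent.H72.HR
open Pool.Agent.H72.SBP (MvK)

noncomputable section

variable {K : Type} [Field K] {l c : ℕ}

/-- dimensions in the middle block -/
theorem mid_dim (B : Matrix (Fin l) (Fin c) K) (V2 : Submodule K (Fin l → K))
    (U2 : Submodule K (Fin c → K)) :
    finrank K (U2 ⊔ V2.map (Matrix.vecMulLinear B) : Submodule K (Fin c → K)) +
      finrank K (V2 ⊓ U2.comap (Matrix.vecMulLinear B) : Submodule K (Fin l → K)) =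
      finrank K U2 + finrank K V2 := by
  obtain ⟨L, hL⟩ : ∃ L : (Fin l → K) →ₗ[K] (Fin c → K), L = Matrix.vecMulLinear B := ⟨_, rfl⟩
  rw [← hL]
  obtain ⟨Up, hUp⟩ : ∃ Up : Submodule K (Fin c → K), Up = U2 ⊔ V2.map L := ⟨_, rfl⟩
  obtain ⟨V1, hV1⟩ : ∃ V1 : Submodule K (Fin l → K), V1 = V2 ⊓ U2.comap L := ⟨_, rfl⟩
  rw [← hUp, ← hV1]
  have h1 := LinearMap.finrank_range_add_finrank_ker ((U2.mkQ ∘ₗ L) ∘ₗ V2.subtype)
  have h2 := LinearMap.finrank_range_add_finrank_ker (U2.mkQ ∘ₗ Up.subtype)
  have hV1le : V1 ≤ V2 := by rw [hV1]; exact inf_le_left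
  have hU2le : U2 ≤ Up := by rw [hUp]; exact le_sup_left
  have hk1 : LinearMap.ker ((U2.mkQ ∘ₗ L) ∘ₗ V2.subtype) = V1.comap V2.subtype := by
    ext y
    rw [LinearMap.mem_ker, LinearMap.comp_apply, LinearMap.comp_apply, Submodule.mkQ_apply,
      Submodule.Quotient.mk_eq_zero, Submodule.mem_comap, hV1, Submodule.mem_inf,
      Submodule.mem_comap]
    exact ⟨fun h => ⟨y.2, h⟩, fun h => h.2⟩
  have hk2 : LinearMap.ker (U2.mkQ ∘ₗ Up.subtype) = U2.comap Up.subtype := by
    ext y
    rw [LinearMap.mem_ker, LinearMap.comp_apply, Submodule.mkQ_apply,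
      Submodule.Quotient.mk_eq_zero, Submodule.mem_comap]
  have hr : LinearMap.range ((U2.mkQ ∘ₗ L) ∘ₗ V2.subtype) =
      LinearMap.range (U2.mkQ ∘ₗ Up.subtype) := by
    rw [LinearMap.range_comp, LinearMap.range_comp, Submodule.range_subtype,
      Submodule.range_subtype, Submodule.map_comp, hUp, Submodule.map_sup]
    have : U2.map U2.mkQ = ⊥ := by
      rw [Submodule.eq_bot_iff]
      rintro _ ⟨y, hy, rfl⟩
      rw [Submodule.mkQ_apply, Submodule.Quotient.mk_eq_zero]
      exact hy
    rw [this, bot_sup_eq]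
  have e1 : finrank K (V1.comap V2.subtype) = finrank K V1 :=
    (Submodule.comapSubtypeEquivOfLe hV1le).finrank_eq
  have e2 : finrank K (U2.comap Up.subtype) = finrank K U2 :=
    (Submodule.comapSubtypeEquivOfLe hU2le).finrank_eq
  rw [hk1, e1, hr] at h1
  rw [hk2, e2] at h2
  omega

theorem hri_all {F : Type} [Field F] [Algebra K F] (h2 : T_ADD) (h3 : T_MID) (h4 : T_INT)
    (h5 : T_GA) (h6 : T_GB) (m : ℕ) (x : Fin (m + 1) → F) (hx : x (Fin.last m) ≠ 0)
    (hS : HRS K F {k | k ≠ Fin.last (m + 1)} x) : ∀ s, HRI K F Set.univ x s := by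
  intro s
  induction s with
  | zero =>
    intro l c A V' V U' U a b _ _ _ _ _ _ hab _
    have ha : a = 0 := by omega
    have hb : b = 0 := by omega
    subst ha hb
    simp
  | succ s ih =>
    intro l c A V' V U' U a b hV hU hI' hI hVa hUb hab hsem
    by_cases hs : a + b ≤ s
    · exact ih l c A V' V U' U a b hV hU hI' hI hVa hUb hs hsem
    by_cases hall : ∀ (V2 : Submodule K (Fin l → K)) (U2 : Submodule K (Fin c → K)), V' ≤ V2 →
        V2 ≤ V → U' ≤ U2 → U2 ≤ U → Into {k | k ≠ Fin.last (m + 1)} A V2 U2 →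
        b * (finrank K V2 - finrank K V') ≤ a * (finrank K U2 - finrank K U')
    · exact h4 K F (m + 1) _ x hS (s + 1) l c A V' V U' U a b hV hU hI' hI hVa hUb hab hall
    push Not at hall
    obtain ⟨V2, U2, g1, g2, g3, g4, g5, g6⟩ := hall
    obtain ⟨B, hB⟩ : ∃ B, B = A (Fin.last (m + 1)) := ⟨_, rfl⟩
    obtain ⟨Up, hUp⟩ : ∃ Up : Submodule K (Fin c → K),
      Up = U2 ⊔ V2.map (Matrix.vecMulLinear B) := ⟨_, rfl⟩
    obtain ⟨V1, hV1⟩ : ∃ V1 : Submodule K (Fin l → K),
      V1 = V2 ⊓ U2.comap (Matrix.vecMulLinear B) := ⟨_, rfl⟩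
    have hdim := mid_dim B V2 U2
    rw [← hUp, ← hV1] at hdim
    have hV1le : V1 ≤ V2 := by rw [hV1]; exact inf_le_left
    have hV'1 : V' ≤ V1 := by
      rw [hV1]
      refine le_inf g1 fun y hy => ?_
      rw [Submodule.mem_comap, Matrix.vecMulLinear_apply, hB]
      exact g3 (hI' _ (Set.mem_univ _) y hy)
    have hU2le : U2 ≤ Up := by rw [hUp]; exact le_sup_left
    have hUple : Up ≤ U := by
      rw [hUp]
      refine sup_le g4 ?_
      rintro _ ⟨y, hy, rfl⟩
      rw [Matrix.vecMulLinear_apply, hB]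
      exact hI _ (Set.mem_univ _) y (g2 hy)
    have hInto1 : Into Set.univ A V1 U2 := by
      intro k _ y hy
      by_cases hk : k = Fin.last (m + 1)
      · rw [hV1] at hy
        have := hy.2
        rw [hk, ← hB]
        exact this
      · exact g5 k hk y (hV1le hy)
    have hInto2 : Into Set.univ A V2 Up := by
      intro k _ y hy
      by_cases hk : k = Fin.last (m + 1)
      · rw [hk, ← hB, hUp]
        exact Submodule.mem_sup_right ⟨y, hy, rfl⟩
      · exact hU2le (g5 k hk y hy)
    have hmid := h3 K F m l c x hx A V2 U2 g5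
    rw [← hB, ← hUp] at hmid
    have add1 := (h2 K F (m + 1) l c x A).1 V1 V U' U2 (hV1le.trans g2) g3 hInto1
    have add2 := (h2 K F (m + 1) l c x A).1 V2 V U2 Up g2 hU2le hInto2
    rw [hmid] at add2
    have f1 := Submodule.finrank_mono hV'1
    have f2 := Submodule.finrank_mono hV1le
    have f3 := Submodule.finrank_mono g2
    have f4 := Submodule.finrank_mono g3
    have f5 := Submodule.finrank_mono hU2le
    have f6 := Submodule.finrank_mono hUple
    have hvpos : 0 < finrank K V2 - finrank K V' := by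
      by_contra hcon
      have : finrank K V2 - finrank K V' = 0 := by omega
      rw [this, mul_zero] at g6
      omega
    have hbpos : 0 < b := by
      by_contra hcon
      have : b = 0 := by omega
      rw [this, zero_mul] at g6
      omega
    have hapos : 0 < a := by omega
    have hsmall : (finrank K V1 - finrank K V') + (finrank K U2 - finrank K U') ≤ s := by
      by_contra hcon
      have e1 : finrank K V1 - finrank K V' = a := by omega
      have e2 : finrank K U2 - finrank K U' = b := by omega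
      have e3 : finrank K V2 - finrank K V' = a := by omega
      rw [e2, e3, mul_comm] at g6
      omega
    have gb := h6 K F (m + 1) x s b a hbpos hapos ih l c A V' V1 U' U2
      (finrank K V1 - finrank K V') (finrank K U2 - finrank K U') hV'1 g3 hI' hInto1
      (by omega) (by omega) hsmall (fun V3 U3 k1 k2 k3 k4 k5 =>
        hsem V3 U3 k1 (k2.trans (hV1le.trans g2)) k3 (k4.trans g4) k5)
    have ga := h5 K F (m + 1) x s b a hbpos hapos ih l c A V2 V Up U
      (finrank K V - finrank K V2) (finrank K U - finrank K Up) g2 hUple hInto2 hI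
      (by omega) (by omega) (by omega) (fun V3 U3 k1 k2 k3 k4 k5 => by
        have k6 := hsem V3 U3 (g1.trans k1) k2 (g3.trans (hU2le.trans k3)) k4 k5
        have k7 := Submodule.finrank_mono (g1.trans k1)
        have k8 := Submodule.finrank_mono k2
        have k9 := Submodule.finrank_mono (g3.trans (hU2le.trans k3))
        have k10 := Submodule.finrank_mono k4
        obtain ⟨α, hα⟩ : ∃ α, finrank K V3 = finrank K V' + α := ⟨_, (Nat.add_sub_of_le k7).symm⟩
        obtain ⟨β, hβ⟩ : ∃ β, finrank K U3 = finrank K U' + β := ⟨_, (Nat.add_sub_of_le k9).symm⟩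
        obtain ⟨α', hα'⟩ : ∃ α', a = α + α' := ⟨a - α, by omega⟩
        obtain ⟨β', hβ'⟩ : ∃ β', b = β + β' := ⟨b - β, by omega⟩
        have e1 : finrank K V3 - finrank K V' = α := by omega
        have e2 : finrank K U3 - finrank K U' = β := by omega
        have e3 : finrank K V - finrank K V3 = α' := by omega
        have e4 : finrank K U - finrank K U3 = β' := by omega
        rw [e1, e2, hα', hβ'] at k6
        rw [e3, e4, hα', hβ']
        nlinarith)
    -- arithmetic
    obtain ⟨α, hα⟩ : ∃ α, finrank K V1 = finrank K V' + α := ⟨_, (Nat.add_sub_of_le f1).symm⟩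
    obtain ⟨γ, hγ⟩ : ∃ γ, finrank K V2 = finrank K V1 + γ := ⟨_, (Nat.add_sub_of_le f2).symm⟩
    obtain ⟨β, hβ⟩ : ∃ β, finrank K U2 = finrank K U' + β := ⟨_, (Nat.add_sub_of_le f4).symm⟩
    obtain ⟨β', hβ'⟩ : ∃ β', finrank K U = finrank K Up + β' := ⟨_, (Nat.add_sub_of_le f6).symm⟩
    have e1 : finrank K V1 - finrank K V' = α := by omega
    have e2 : finrank K U2 - finrank K U' = β := by omega
    have e3 : finrank K U - finrank K Up = β' := by omega
    have e4 : finrank K V2 - finrank K V' = α + γ := by omega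
    have e5 : finrank K Up = finrank K U2 + γ := by omega
    have e6 : b = β + γ + β' := by omega
    rw [e1] at gb
    rw [e3] at ga
    rw [e2, e4] at g6
    have r1 : RR F x A V Up ≤ RR F x A V U2 := by omega
    have r2 : RR F x A V Up + RR F x A V1 U' ≤ RR F x A V U' + finrank K U2 := by omega
    have r3 := Nat.mul_le_mul_left (b + a) r2
    rw [Nat.mul_add, Nat.mul_add] at r3
    have r4 : a * β' + (b + a) * finrank K Up + (b * α + (b + a) * finrank K U') ≤
        (b + a) * RR F x A V U' + (b + a) * finrank K U2 := by omega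
    rw [e5, Nat.mul_add] at r4
    have r5 : a * β' + (b + a) * γ + b * α + (b + a) * finrank K U' ≤
        (b + a) * RR F x A V U' := by omega
    have r6 : a * b ≤ a * β' + (b + a) * γ + b * α := by
      have : b * (α + γ) = b * α + b * γ := Nat.mul_add _ _ _
      have h8 : a * b = a * β + a * γ + a * β' := by rw [e6]; ring
      have h9 : (b + a) * γ = b * γ + a * γ := by ring
      omega
    rw [add_comm a b]
    omega

theorem pf_PER (h2 : T_ADD) (h3 : T_MID) (h4 : T_INT) (h5 : T_GA) (h6 : T_GB) : T_PER := by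
  intro K F _ _ _ m x hx hS l c A hsemi
  have h7 := hri_all (K := K) h2 h3 h4 h5 h6 m x hx hS (l + c) l c A ⊥ ⊤ ⊥ ⊤ l c bot_le bot_le
    (fun k _ y hy => by
      rw [Submodule.mem_bot] at hy
      rw [hy, Matrix.zero_vecMul]
      exact Submodule.zero_mem _) (fun k _ y _ => Submodule.mem_top) (by simp) (by simp) le_rfl
    (fun V2 U2 _ _ _ _ h => by
      simp only [finrank_bot, Nat.sub_zero]
      exact hsemi V2 U2 h)
  rw [(h2 K F (m + 1) l c x A).2] at h7
  simp only [finrank_bot, mul_zero, add_zero] at h7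
  rw [mul_comm (MvK x A).rank]
  exact h7

end

end Pool.Agent.H72.PER
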