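import Pool.Agent.H72.PER.HRL

open Module Filter

namespace Pool.Agent.H72.PER

open Pool.Agent.H72.HR
open Pool.Agent.H72.BF
open Pool.Agent.H72.SBP (HRP hlb pow_le_of_max)

noncomputable section

open Pool.Agent.H78.BF in
theorem pf_SB3 (hBF : T_BF) (hPKG : T_PKG) (hBFF : T_BFF) (hEVP : T_EVP) (hMNR : T_MNR)
    (hSUMA : T_SUMA) (hSPC : T_SPC) (hHRL : T_HRL) : SubspaceBound3 := by
  intro n lam hlam halg d0
  obtain ⟨d, hd⟩ : ∃ d, d = d0 + 1 := ⟨_, rfl⟩
  obtain ⟨B, hB⟩ : ∃ B, B = n + 1 + d0 * max n ((n + 1) ^ 2 / 4) := ⟨_, rfl⟩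
  rw [← hd, ← hB]
  by_contra hcon
  push Not at hcon
  obtain ⟨r, hr⟩ : ∃ r, r = (n + d).choose n - (B - 1) := ⟨_, rfl⟩
  have hstep : ∀ j : ℕ, ∃ H : ℝ, 2 ≤ H ∧ ∃ p : Fin r →
      MvPolynomial (Fin n) ℤ, (∀ s, p s ∈ Exc n lam d ((j : ℝ) + 1) H) ∧
      LinearIndependent ℚ (fun s => MvPolynomial.map (Int.castRingHom ℚ) (p s)) := by
    intro j
    obtain ⟨H, hH, hW⟩ := hcon ((j : ℝ) + 1) (by positivity)
    refine ⟨H, hH, ?_⟩
    set S : Set (MvPolynomial (Fin n) ℚ) :=
      (fun P => MvPolynomial.map (Int.castRingHom ℚ) P) '' Exc n lam d ((j : ℝ) + 1) H with hS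
    have hSle : Submodule.span ℚ S ≤ MvPolynomial.restrictTotalDegree (Fin n) ℚ d := by
      rw [Submodule.span_le]
      rintro _ ⟨P, hP, rfl⟩
      rw [SetLike.mem_coe, MvPolynomial.mem_restrictTotalDegree]
      exact (totalDegree_map_le' _ P).trans hP.1
    have hfin : FiniteDimensional ℚ (Submodule.span ℚ S) :=
      Submodule.finiteDimensional_of_le hSle
    have hr' : r ≤ finrank ℚ (Submodule.span ℚ S) := by
      by_contra hlt
      push Not at hlt
      obtain ⟨P, hP, hPn⟩ := hW (Submodule.span ℚ S) hSle (by omega)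
      exact hPn (Submodule.subset_span ⟨P, hP, rfl⟩)
    obtain ⟨v, hvS, hvli⟩ := exists_li S hfin _ hr'
    choose p hp hpv using hvS
    refine ⟨p, hp, ?_⟩
    have : (fun s => MvPolynomial.map (Int.castRingHom ℚ) (p s)) = v := by
      funext s
      exact hpv s
    rw [this]
    exact hvli
  choose Hs hHs p hpE hpli using hstep
  obtain ⟨H, hH'⟩ : ∃ H : ℕ → ℝ, H = fun t => max (Hs t) ((t : ℝ) + 2) := ⟨_, rfl⟩
  have hH : ∀ t, 2 ≤ H t := fun t => by rw [hH']; exact (hHs t).trans (le_max_left _ _)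
  have hHsH : ∀ t, Hs t ≤ H t := fun t => by rw [hH']; exact le_max_left _ _
  have htH : ∀ t : ℕ, (t : ℝ) + 2 ≤ H t := fun t => by rw [hH']; exact le_max_right _ _
  obtain ⟨P⟩ := hPKG H hH
  have hHpow : ∀ j (c : ℕ), 1 ≤ H j ^ c := fun j c => one_le_pow₀ (by linarith [hH j])
  have hBd : ∀ (s : Fin r) (m : Fin n →₀ ℕ), P.Bd (fun j => (p j s).coeff m) := by
    intro s m
    apply P.bd_of_le 1
    intro j
    rw [pow_one]
    exact ((hpE j s).2.1 m).trans (hHsH j)
  -- independence of the coefficient vectors over F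
  have hLI := hMNR H P r (Mon n d) (fun j s m => (p j s).coeff (fs m))
    (fun s m => hBd s (fs m)) (by
      intro j
      have h1 := li_coeff (fun s => MvPolynomial.map (Int.castRingHom ℚ) (p j s))
        (fun s => (totalDegree_map_le' _ _).trans (hpE j s).1) (hpli j)
      have h2 : (fun (s : Fin r) (m : Mon n d) => (((p j s).coeff (fs m) : ℤ) : ℚ)) =
          fun s m => (MvPolynomial.map (Int.castRingHom ℚ) (p j s)).coeff (fs m) := by
        funext s m
        rw [MvPolynomial.coeff_map]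
        simp
      rw [h2]
      exact h1)
  -- the residues of the polynomials
  have hev : ∀ s : Fin r, ∃ Q' : MvPolynomial (Fin n) P.kk, Q'.totalDegree ≤ d ∧
      (∀ m : Fin n →₀ ℕ, ((Q'.coeff m : P.kk) : P.F) = P.evZ (fun j => (p j s).coeff m)) ∧
      MvPolynomial.aeval (fun i => P.cst (lam i)) Q' = 0 := by
    intro s
    obtain ⟨Q', hd', hc', hx'⟩ := hEVP H P (Fin n) d 1 (fun j => p j s) (fun j => (hpE j s).1)
      (fun j m => by rw [pow_one]; exact ((hpE j s).2.1 m).trans (hHsH j))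
    refine ⟨Q', hd', hc', ?_⟩
    obtain ⟨hmem, hval⟩ := hx' (fun _ i => lam i) (fun i => P.const_mem (lam i))
    have e1 : (fun i => P.cst (lam i)) = fun i => P.ev (fun _ => lam i) := rfl
    rw [e1, hval, P.ev_eq_zero hmem]
    intro c
    have hge := Nat.hyperfilter_le_atTop (pow_le_of_max Hs hHs c)
    filter_upwards [hge] with j hj
    have h1 := (hpE j s).2.2
    have h2 : H j ^ c ≤ Hs j ^ ((j : ℝ) + 1) := by
      rw [hH']
      exact hj
    calc ‖MvPolynomial.aeval lam (p j s)‖ * H j ^ c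
        ≤ ‖MvPolynomial.aeval lam (p j s)‖ * Hs j ^ ((j : ℝ) + 1) :=
          mul_le_mul_of_nonneg_left h2 (norm_nonneg _)
      _ ≤ 1 := by rw [mul_comm]; exact h1.le
  choose Q' hQd hQc hQ0 using hev
  -- transfer to kb
  set Q : Fin r → MvPolynomial (Fin n) P.kb :=
    fun s => MvPolynomial.map (algebraMap P.kk P.kb) (Q' s) with hQ
  have hQdeg : ∀ s, (Q s).totalDegree ≤ d := fun s => (totalDegree_map_le' _ _).trans (hQd s)
  have hQcoeff : ∀ s m, (((Q s).coeff m : P.kb) : P.F) = P.evZ (fun j => (p j s).coeff m) := by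
    intro s m
    rw [hQ]
    simp only
    rw [MvPolynomial.coeff_map, ← hQc s m]
    rfl
  have hQval : ∀ s, MvPolynomial.aeval (fun i => P.cst (lam i)) (Q s) = 0 := by
    intro s
    rw [hQ]
    simp only
    rw [MvPolynomial.aeval_map_algebraMap]
    exact hQ0 s
  have hQli : LinearIndependent P.kb Q := by
    rw [Fintype.linearIndependent_iff] at hLI ⊢
    intro g hg s
    have h1 : ∑ s, (g s : P.F) • (fun m : Mon n d => P.evZ (fun j => (p j s).coeff (fs m))) = 0 := by
      funext m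
      rw [Finset.sum_apply, Pi.zero_apply]
      have h2 := congrArg (fun q => ((MvPolynomial.coeff (fs m) q : P.kb) : P.F)) hg
      simp only [MvPolynomial.coeff_zero, ZeroMemClass.coe_zero] at h2
      rw [← h2, MvPolynomial.coeff_sum]
      rw [AddSubmonoidClass.coe_finsetSum]
      apply Finset.sum_congr rfl
      intro s _
      rw [MvPolynomial.coeff_smul, Pi.smul_apply, smul_eq_mul, smul_eq_mul, ← hQcoeff]
      rfl
    have h3 := hLI (fun s => (g s : P.F)) h1 s
    exact Subtype.ext h3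
  -- count
  have hBFx := hBFF hBF n lam hlam halg H P
  have hHRP := (hrp_iff _).2 (hHRL n lam hlam halg H htH P)
  have hbound := hlb hSPC P.kb P.F n n (fun j => P.cst (lam j)) (fun k => P.cst (lam k))
    hBFx hHRP (fun k => Submodule.subset_span ⟨k.succ, by rw [Fin.cons_succ]⟩) d0
  rw [← hd, ← hB] at hbound
  have hker := count_le n d r (fun j => P.cst (lam j)) Q hQdeg hQval hQli
  have hle := finrank_restrict_le P.kb n d hSUMA
  omega

end

end Pool.Agent.H72.PER
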