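import Pool.Agent.H72.SBP.All2
import Pool.Agent.H72.PER.PER
import Pool.Agent.H72.PER.HRL
import Pool.Agent.H72.PER.SB3
import Pool.Agent.H72.PER.ES3
import Pool.Agent.H60.PER.FHRK
import Pool.Agent.H60.PER.HRW
import Pool.Agent.H34.PER.GA
import Pool.Agent.H34.PER.WGT
import Pool.Agent.H89.PER.RDK
import Pool.Agent.H33.PER.ADD
import Pool.Agent.H19.PER.GB
import Pool.Agent.H19.PER.INT
import Pool.Agent.H19.PER.MID
import Pool.Agent.H49.PER.LFX
import Pool.Agent.H54.PER.EXA

namespace Pool.Agent.H72.PER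

open Pool.Agent
open Pool.Agent.H72.BF

theorem exaAll : T_EXA := H54.PER.pf_EXA

theorem addAll : T_ADD := H33.PER.pf_ADD exaAll

theorem intAll : T_INT := H19.PER.pf_INT exaAll

theorem gaAll : T_GA := Pool.Agent.H34.PER.GA.pf_GA exaAll addAll

theorem gbAll : T_GB := H19.PER.pf_GB exaAll addAll

/-- the half rank property for all logarithms -/
theorem hrlAll : T_HRL :=
  pf_HRL (pf_PER addAll (H19.PER.pf_MID exaAll) intAll gaAll gbAll)
    (H60.PER.pf_FHRK H35.SBP.ech (H34.SBP.dsc H78.BF.spc) (H29.BF.lft H57.BF.clr) H54.BF.root)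
    HRA.half_rank bakerFeldman bffAll

/-- exceptional subspaces, all logarithms -/
theorem subspaceBound3 : SubspaceBound3 :=
  pf_SB3 bakerFeldman H29.BF.pkg bffAll H84.BF.evp H84.BF.mnr H57.BF.suma H78.BF.spc hrlAll

/-- exceptional subspaces for pairs, all logarithms -/
theorem excSub3 : ExcSub3 :=
  pf_ES3 bakerFeldman H29.BF.pkg bffAll H84.BF.evp H84.BF.mnr
    (H79.BF.cvr (H35.BF.stp H35.BF.nrm Pool.Agent.H72.BF.lfs2)) (H62.BF.spt H78.BF.spc)
    H78.BF.spc H79.BF.crt hrlAll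

/-- the half rank theorem for all pencils and all logarithms, with polynomial loss -/
theorem halfRankPlus : HalfRankPlus :=
  H89.PER.pf_RDK
    (H60.PER.pf_HRW H29.BF.pkg H54.BF.root hrlAll
      (Pool.Agent.H34.PER.WGT.pf_WGT addAll intAll gaAll gbAll)
      (H49.PER.pf_LFX (H29.BF.lft H57.BF.clr) H54.BF.root H46.HR.pol_target))
    H46.HR.pol_target

end Pool.Agent.H72.PER
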